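import Pool.Agent.MukaiGen.Final

set_option autoImplicit false

namespace Pool.Agent.Results.MP_1a0ff2_ag.DisjointMonomials

/-- The complexity version of the generalised Mukai inequality, also with the absolute complexity,
holds for every smooth Fano variety whose Cox ring is defined by general linear relations between
monomials in pairwise disjoint sets of variables. -/
theorem result (X : ArrVar.Data) (hX : X.IsSmoothFano) (iota : ℕ) (hiota : 1 ≤ iota)
    (H : Fin X.rho → ℤ) (hH : X.antiK = (iota : ℤ) • H) :
    ∃ (J : Type) (_ : Fintype J) (f : J → MvPolynomial X.A ℂ) (D : J → Fin X.rho → ℤ)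
      (a : J → ℝ), X.IsLogCY f D a ∧
      ((iota : ℝ) - 1) * (X.rho : ℝ) + ((X.dim : ℝ) + X.rho - ∑ j, a j) ≤ (X.dim : ℝ) ∧
      ((iota : ℝ) - 1) * (X.rho : ℝ) + X.complexity D a Finset.univ ≤ (X.dim : ℝ) :=
  ArrVar.final X hX iota hiota H hH

end Pool.Agent.Results.MP_1a0ff2_ag.DisjointMonomials
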